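import Pool.Agent.Helper8.SPV.Stmts

/-! # Module BDEX: existence of the base data -/

set_option autoImplicit false

namespace Pool.Agent.Helper8.SPV

open IntermediateField IntermediateField.algebraAdjoinAdjoin

theorem BDEX_alg {k : Type} [Field k] (F1 F2 : Type) [Field F1] [Field F2] [Algebra F1 k]
    [Algebra F2 k] (φ : F1 →+* F2) (hφ : ∀ y, algebraMap F2 k (φ y) = algebraMap F1 k y) (a : k)
    (h : IsAlgebraic F1 a) : IsAlgebraic F2 a := by
  obtain ⟨p, hp, hpa⟩ := h
  refine ⟨p.map φ, ?_, ?_⟩
  · exact (Polynomial.map_ne_zero_iff φ.injective).mpr hp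
  · rw [Polynomial.aeval_def, Polynomial.eval₂_map]
    have : (algebraMap F2 k).comp φ = algebraMap F1 k := RingHom.ext hφ
    rw [this, ← Polynomial.aeval_def, hpa]

theorem BDEX_aux (k : Type) [Field k] [IsAlgClosed k] [CharZero k] (ι : Type) (x : ι → k)
    (hx : IsTranscendenceBasis ℚ x) (e : Fin 10 ↪ ι) :
    ∃ (k0 : Type) (_ : Field k0) (_ : IsAlgClosed k0) (_ : Algebra k0 k) (b : Fin 10 → k),
      BD k0 k b := by
  classical
  set s : Set ι := (Set.range e)ᶜ with hs
  set F : IntermediateField ℚ k := IntermediateField.adjoin ℚ (x '' s) with hF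
  have hdis : Disjoint s (Set.range e) := disjoint_compl_left
  have h1 : AlgebraicIndependent (Algebra.adjoin ℚ (x '' s)) (fun i : Set.range e => x i) :=
    hx.1.adjoin_of_disjoint hdis
  have h2 : AlgebraicIndependent F (fun i : Set.range e => x i) := h1.extendScalars F
  have h3 : AlgebraicIndependent (algebraicClosure F k) (fun i : Set.range e => x i) :=
    h2.algebraicClosure
  have h4 : AlgebraicIndependent (algebraicClosure F k) (fun j : Fin 10 => x (e j)) :=
    h3.comp (fun j => ⟨e j, j, rfl⟩) (fun a b hab => e.injective (congrArg Subtype.val hab))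
  refine ⟨algebraicClosure F k, inferInstance, (algebraicClosure.isAlgClosure F k).1, inferInstance,
    fun j => x (e j), h4, ?_⟩
  have h5 := hx.isAlgebraic_field
  refine ⟨fun a => ?_⟩
  set F2 := IntermediateField.adjoin (algebraicClosure F k) (Set.range fun j => x (e j)) with hF2
  have hsub : ∀ y ∈ IntermediateField.adjoin ℚ (Set.range x), y ∈ F2 := by
    intro y hy
    induction hy using IntermediateField.adjoin_induction with
    | mem y hy =>
      obtain ⟨i, rfl⟩ := hy
      by_cases hi : i ∈ Set.range e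
      · obtain ⟨j, rfl⟩ := hi
        exact IntermediateField.subset_adjoin _ _ ⟨j, rfl⟩
      · have hiF : x i ∈ F := IntermediateField.subset_adjoin _ _ ⟨i, hi, rfl⟩
        have := F2.algebraMap_mem (algebraMap F (algebraicClosure F k) ⟨x i, hiF⟩)
        exact this
    | algebraMap q =>
      have := F2.algebraMap_mem (algebraMap ℚ (algebraicClosure F k) q)
      rwa [← IsScalarTower.algebraMap_apply] at this
    | add y z _ _ h h' => exact F2.add_mem h h'
    | inv y _ h => exact F2.inv_mem h
    | mul y z _ _ h h' => exact F2.mul_mem h h'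
  exact BDEX_alg (IntermediateField.adjoin ℚ (Set.range x)) F2
    { toFun := fun y => ⟨y.1, hsub y.1 y.2⟩
      map_one' := rfl
      map_mul' := fun _ _ => rfl
      map_zero' := rfl
      map_add' := fun _ _ => rfl } (fun _ => rfl) a (h5.isAlgebraic a)

theorem st_BDEX : ST_BDEX := by
  intro k _ _ _ h
  obtain ⟨s, hs⟩ := exists_isTranscendenceBasis ℚ k
  have hc := hs.cardinalMk_eq_trdeg
  rw [← hc] at h
  have h10 : Cardinal.mk (Fin 10) ≤ Cardinal.mk s := by
    rw [Cardinal.mk_fin]; exact_mod_cast h
  obtain ⟨e⟩ := h10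
  exact BDEX_aux k s _ hs e

end Pool.Agent.Helper8.SPV
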