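import Pool.Agent.Helper8.SPV.Stmts

/-! # Module PLM: the number of poles in `K` and in a subfield `M` -/

set_option autoImplicit false

namespace Pool.Agent.Helper8.SPV

open IntermediateField

variable {k K : Type} [Field k] [Field K] [Algebra k K]

/-- a place is determined by its valuation ring -/
theorem PLM_ext {p q : Pl k K} (h : p.O = q.O) : p = q := by
  cases p; cases q; cases h; rfl

theorem PLM_ord_zero (p : Pl k K) : p.ord 0 = 0 := by
  unfold Pl.ord
  have : ¬ ∃ n : ℤ, p.U ((0 : K) * p.z ^ (-n)) := by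
    rintro ⟨n, hn⟩
    exact hn.1 (by simp)
  rw [dif_neg this]

theorem PLM_poles_zero : Pl.poles (k := k) (0 : K) = 0 := by
  unfold Pl.poles
  have : (fun p : Pl k K => max 0 (-p.ord (0 : K))) = fun _ => 0 := by
    funext p
    rw [PLM_ord_zero]
    simp
  rw [this]
  exact finsum_zero

theorem st_PLM (h2 : ST_PL2) (h6 : ST_PL6) (hR : ST_PLR) : ST_PLM := by
  intro k K _ _ _ _ _ hK M hM f
  by_cases hf0 : f = 0
  · subst hf0
    rw [ZeroMemClass.coe_zero, PLM_poles_zero, PLM_poles_zero, mul_zero]
  have hfK0 : (f : K) ≠ 0 := by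
    intro h
    exact hf0 (by exact_mod_cast h)
  classical
  -- the restriction map
  choose ρ hρ1 hρ2 hρ3 using hR k K hK M hM
  have hA := h2 k M hM f hf0
  have hB := h2 k K hK (f : K) hfK0
  have hρB : ∀ p : Pl k K, p.ord (f : K) ≠ 0 ↔ (ρ p).ord f ≠ 0 := by
    intro p
    rw [hρ3 p f]
    constructor
    · intro h h'
      exact h (by rw [h', mul_zero])
    · intro h h'
      rcases mul_eq_zero.mp h' with h1 | h1
      · have := hρ2 p
        omega
      · exact h h1
  have hmax : ∀ p : Pl k K, max 0 (-p.ord (f : K)) =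
      p.ord ((ρ p).z : K) * max 0 (-(ρ p).ord f) := by
    intro p
    rw [hρ3 p f, mul_max_of_nonneg _ _ (by have := hρ2 p; omega), mul_zero, mul_neg]
  have e1 : Pl.poles (k := k) (f : K) = ∑ p ∈ hB.toFinset, max 0 (-p.ord (f : K)) := by
    unfold Pl.poles
    refine finsum_eq_sum_of_support_subset _ ?_
    intro p hp
    simp only [Function.mem_support] at hp
    simp only [Set.Finite.coe_toFinset, Set.mem_setOf_eq]
    intro h
    exact hp (by rw [h]; simp)
  have e2 : Pl.poles (k := k) f = ∑ q ∈ hA.toFinset, max 0 (-q.ord f) := by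
    unfold Pl.poles
    refine finsum_eq_sum_of_support_subset _ ?_
    intro p hp
    simp only [Function.mem_support] at hp
    simp only [Set.Finite.coe_toFinset, Set.mem_setOf_eq]
    intro h
    exact hp (by rw [h]; simp)
  rw [e1, e2, Finset.mul_sum]
  have hmaps : ∀ p ∈ hB.toFinset, ρ p ∈ hA.toFinset := by
    intro p hp
    simp only [Set.Finite.mem_toFinset, Set.mem_setOf_eq] at hp ⊢
    exact (hρB p).mp hp
  rw [← Finset.sum_fiberwise_of_maps_to hmaps]
  refine Finset.sum_congr rfl ?_
  intro q hq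
  simp only [Set.Finite.mem_toFinset, Set.mem_setOf_eq] at hq
  obtain ⟨hfin, hsum⟩ := h6 k K hK M hM q
  have hρq : ∀ p : Pl k K, p.O.comap (algebraMap M K) = q.O ↔ ρ p = q := by
    intro p
    constructor
    · intro h
      exact PLM_ext ((hρ1 p).symm.trans h)
    · intro h
      rw [← h]
      exact hρ1 p
  have hsum' : ∑ p ∈ hB.toFinset.filter (fun p => ρ p = q), p.ord (q.z : K) =
      (Module.finrank M K : ℤ) := by
    rw [← hsum]
    symm
    refine finsum_mem_eq_sum_of_inter_support_eq _ ?_
    ext p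
    simp only [Set.mem_inter_iff, Set.mem_setOf_eq, Function.mem_support, Finset.coe_filter,
      Set.Finite.mem_toFinset]
    constructor
    · rintro ⟨h1, h3⟩
      have h4 := (hρq p).mp h1
      exact ⟨⟨(hρB p).mpr (by rw [h4]; exact hq), h4⟩, h3⟩
    · rintro ⟨⟨-, h4⟩, h3⟩
      exact ⟨(hρq p).mpr h4, h3⟩
  rw [← hsum', Finset.sum_mul]
  refine Finset.sum_congr rfl ?_
  intro p hp
  simp only [Finset.mem_filter] at hp
  rw [hmax p, hp.2]

end Pool.Agent.Helper8.SPV
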